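import Pool.Agent.W5h93.EX.TateMain

/-!
# The conjecture of Birch, Swinnerton-Dyer and Tate and trilinear forms

For a regular scheme `𝒵` of finite type over `ℤ`, of dimension `d`, Tate's invariant
`z(𝒵) = rank H⁰(𝒵, 𝒪*) - rank H¹(𝒵, 𝒪*) - ord_{s=d-1} ζ(𝒵, s)` is a birational invariant. If
`𝒳 → 𝒴` is a model of a curve `X` over the function field `K` of `𝒴`, then `z(𝒳) - z(𝒴)` is the
difference `ord_{s=dim 𝒴} Φ_1(s) - rank Pic⁰_{X/K}(K)`, which is zero by the conjecture. Hence the
conjecture for all curves over number fields and over the fields of transcendence degree one over `ℚ` is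
about the invariants `z` of the models of the curves and the surfaces over `ℚ`.

Let `δ(S) = β(S) L + z(𝒮) L²` for the smooth projective surfaces over `ℚ`, where `β(S)` is the defect
of the conjecture for the Picard variety of `S` over the number field of constants, and `δ(Y) = β(Y) L`
for curves. These polynomials are compatible with blow-ups. We show: the conjecture for the
surfaces and curves over all number fields and for the curves over all fields of transcendence degree one
over `ℚ` is equivalent to the vanishing of the additive invariant `δ` for the smooth affine cubic
hypersurfaces `T(x, y, z) = 1` over `ℚ`, of arbitrary dimension, where `T` is a trilinear form one of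
whose blocks of variables has at most four variables.
-/

set_option autoImplicit false

open CategoryTheory AlgebraicGeometry Pool.Agent.Y116.UV Pool.Agent.W5h93.EV Pool.Agent.W5h93.EX

universe w

namespace Pool.Agent.Results.MP_9faec4_nt.BlocksOfFourVariables

/-- **The conjecture for Picard varieties over finitely generated fields of transcendence degree at most
one over `ℚ` and trilinear forms with a block of at most four variables.** -/
theorem result (D : TateData.{w}) (Q : Sch ℚ → Prop) (hQ : IsClass Q) (δ : Sch ℚ → ℤ → ℤ)
    (hδ : D.IsDefect Q δ) :
    (ForForms (AllZero δ) 4 → D.Holds Q) ∧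
    (ModelsIn Q 2 → (D.Holds Q ↔ ForForms (AllZero δ) 4)) := by
  have hB := bnd_additive hδ.additive
  refine ⟨fun h => (tate_iff hδ).mpr fun X hX hd => dim_of_forms hB h X (hQ.ft hX) hd,
    fun hM => (tate_iff hδ).trans (class_iff hB hQ hM)⟩

end Pool.Agent.Results.MP_9faec4_nt.BlocksOfFourVariables
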