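import Pool.Agent.W5h21.DQ.Main
import Pool.Agent.W5h21.DQ.Pt

/-!
# Tate's Birch-Swinnerton-Dyer conjecture for 100 per cent of the quadratic twists

The Jacobians of the hyperelliptic curves `D y ^ 2 = (x - h(t)) f(x)` over the function field of `Y × 𝔸¹`, for
a variety `Y` of positive dimension over a finite field of odd characteristic.
-/

set_option autoImplicit false
set_option maxHeartbeats 1000000

open Polynomial

namespace Pool.Agent.Results.MP_9faec4_nt.DensityOneQuadraticTwists

/-- The closed points of the affine line over the field `F`: monic irreducible polynomials. -/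
abbrev ClosedPt (F : Type) [Field F] : Type := {P : F[X] // P.Monic ∧ Irreducible P}

section generic

variable {F : Type} [Field F]

open Classical in
/-- The quadratic character of the field `F[x] / (Q)` at the class of `h`. -/
noncomputable def quadChar (h Q : F[X]) : ℤ :=
  if Q ∣ h then 0 else if ∃ s : F[X], Q ∣ h - s ^ 2 then 1 else -1

/-- The degree of the closed point `Q` of the line over a field `F` of degree `d`. -/
noncomputable def ptDegree (d : ℕ) (Q : ClosedPt F) : ℕ := d * Q.1.natDegree

/-- The Euler factor `1 - χ T ^ n`, where `χ` is the value of the quadratic character of the residue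
field of `Q` at `h`, and `n` is the degree of `Q`. -/
noncomputable def ptFactor (h : F[X]) (d : ℕ) (Q : ClosedPt F) : PowerSeries ℤ :=
  1 - PowerSeries.C (quadChar h Q.1) * PowerSeries.X ^ ptDegree d Q

end generic

/-- The Euler product: its coefficient of index `n` is that of the product of the factors of degree
at most `n`. -/
noncomputable def eulerProduct {ι : Type} (d : ι → ℕ) (f : ι → PowerSeries ℤ) : PowerSeries ℤ :=
  PowerSeries.mk fun n => PowerSeries.coeff n (∏ᶠ (i : ι) (_ : d i ≤ n), f i)

/-- The product of the factors `1 - χ T ^ n` over the closed points of the affine line over `F`, `χ`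
the value of the quadratic character at `h`. -/
noncomputable def lineProduct {F : Type} [Field F] (h : F[X]) : PowerSeries ℤ :=
  eulerProduct (fun Q : ClosedPt F => ptDegree 1 Q) (fun Q => ptFactor h 1 Q)

section defs

variable {k : Type} [Field k]

/-- The residue field of the closed point `P` of the `t`-line. -/
def Res (P : ClosedPt k) : Type := AdjoinRoot P.1

noncomputable instance resField (P : ClosedPt k) : Field (Res P) :=
  @AdjoinRoot.instField k _ P.1 ⟨P.2.2⟩

/-- The value at `P` of a polynomial in `t`. -/
noncomputable def value (P : ClosedPt k) (g : k[X]) : Res P := AdjoinRoot.mk P.1 g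

/-- The inclusion of the constants in the residue field. -/
noncomputable def constants (P : ClosedPt k) : k →+* Res P := AdjoinRoot.of P.1

/-- The polynomial `D(t) (x - h(t)) f(x)` in `x` over the residue field of the closed point `P`. -/
noncomputable def fibre (f h D : k[X]) (P : ClosedPt k) : (Res P)[X] :=
  C (value P D) * ((X - C (value P h)) * f.map (constants P))

/-- The closed points of the `(t, x)`-plane with `D(t) ≠ 0`: a closed point of the `t`-line and a
closed point of the `x`-line over its residue field. -/
structure PlanePt (D : k[X]) : Type where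
  place : ClosedPt k
  ndvd : ¬ place.1 ∣ D
  point : ClosedPt (Res place)

/-- The degree of a closed point of the plane. -/
noncomputable def PlanePt.deg {D : k[X]} (z : PlanePt D) : ℕ :=
  ptDegree z.place.1.natDegree z.point

/-- The Euler factor of a closed point of the plane. -/
noncomputable def PlanePt.factor {D : k[X]} (f h : k[X]) (z : PlanePt D) : PowerSeries ℤ :=
  ptFactor (fibre f h D z.place) z.place.1.natDegree z.point

open Classical in
/-- The factors of the points `x = ∞` of the fibres: if the degree of `f` is odd then the factor of the
fibre at `P` is `1 - χ(P) T ^ deg P` with the quadratic character `χ(P)` of the residue field of `P` at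
`D`; if the degree is even then these are points of ramification and the factors are one. -/
noncomputable def fibreInfFactor (f D : k[X]) : PowerSeries ℤ :=
  if Odd f.natDegree then lineProduct D else 1

open Classical in
/-- The Euler factor at `t = ∞`: if the degree of `h D` is even then it is the product over the closed
points of the affine line for the reduction `y ^ 2 = - c f(x)`, `c` the leading coefficient of `h D`;
otherwise the factor is one. -/
noncomputable def infFactor (f h D : k[X]) : PowerSeries ℤ :=
  if Even (h.natDegree + D.natDegree) then
    lineProduct (C (-(h.leadingCoeff * D.leadingCoeff)) * f) else 1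

/-- The `L`-function in the variable `T = q ^ (-s)` of the Jacobian of the curve
`D(t) y ^ 2 = (x - h(t)) f(x)` over `k(t)`, `f` monic: the product of `1 - χ(z) T ^ deg z` over the
closed points `z` of the plane with `D(t) ≠ 0`, where `χ(z)` is the quadratic character of the residue
field of `z` at `D(t) (x - h(t)) f(x)`, times the factors of the points `x = ∞` of the fibres, times
the factor at `t = ∞`. -/
noncomputable def Lfun (f h D : k[X]) : PowerSeries ℤ :=
  eulerProduct (fun z : PlanePt D => z.deg) (fun z => z.factor f h) * fibreInfFactor f D *
    infFactor f h D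

/-- `L(T) = (1 - q T) G(T)` with an integral polynomial `G`: the function vanishes at `s = 1`. -/
def VanishesAtOne (f h D : k[X]) : Prop :=
  ∃ G : ℤ[X], Lfun f h D = (((1 - C (Nat.card k : ℤ) * X) * G : ℤ[X]) : PowerSeries ℤ)

/-- The polynomial `D` has exact degree `N`, it is squarefree and prime to `f(h(t))`, and the
`L`-function of the Jacobian of `D(t) y ^ 2 = (x - h(t)) f(x)` does not vanish at `s = 1`. -/
structure Settled (f h : k[X]) (N : ℕ) (D : k[X]) : Prop where
  deg : D.natDegree = N
  squarefree : Squarefree D
  coprime : IsCoprime D (f.comp h)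
  nonvanishing : ¬ VanishesAtOne f h D

/-- the equivalence of the two descriptions of the points of the plane -/
noncomputable def planeEquiv (D : k[X]) :
    (Σ P : {P : Pool.Agent.W313.Hyp.MI k // ¬ P.1 ∣ D},
      Pool.Agent.W313.Hyp.MI (Pool.Agent.TH943.HJ.RF P.1)) ≃ PlanePt D where
  toFun z := ⟨z.1.1, z.1.2, z.2⟩
  invFun z := ⟨⟨z.place, z.ndvd⟩, z.point⟩
  left_inv _ := rfl
  right_inv _ := rfl

theorem Lfun_eq (f h D : k[X]) :
    Lfun f h D = Pool.Agent.TH943.LP.LL f h D := by
  unfold Lfun Pool.Agent.TH943.LP.LL
  congr 1
  congr 1
  unfold Pool.Agent.TH943.LP.LF eulerProduct Pool.Agent.W343.BSD.eulerProd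
  ext n
  rw [PowerSeries.coeff_mk, PowerSeries.coeff_mk]
  congr 1
  exact (finprod_comp_equiv (planeEquiv D)
    (f := fun z : PlanePt D => ∏ᶠ (_ : z.deg ≤ n), z.factor f h)).symm

theorem settled_of {f h D : k[X]} {N : ℕ} (hD : Pool.Agent.W5h21.DQ.Goo f h N D) :
    Settled f h N D := by
  refine ⟨hD.deg, hD.sqf, hD.cop, fun ⟨G, hG⟩ => hD.nv ⟨G, ?_⟩⟩
  rw [Pool.Agent.Results.MP_9faec4_nt.PencilPullbacks.Lfun_eq, ← Lfun_eq, hG, pow_one]

end defs

section base

variable {k : Type} [Field k] {A : Type} [CommRing A] [Algebra k A]

/-- The residue field of a closed point of `Y = Spec A`. -/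
def FieldAt (c : MaximalSpectrum A) : Type := A ⧸ c.asIdeal

attribute [local instance] MaximalSpectrum.isMaximal in
noncomputable instance fieldAtField (c : MaximalSpectrum A) : Field (FieldAt c) :=
  Ideal.Quotient.field c.asIdeal

instance fieldAtAlgebra (c : MaximalSpectrum A) : Algebra k (FieldAt c) :=
  inferInstanceAs (Algebra k (A ⧸ c.asIdeal))

/-- The value of a function on `Y` at the closed point `c`. -/
def evalAt (c : MaximalSpectrum A) : A →+* FieldAt c := Ideal.Quotient.mk c.asIdeal

/-- The specialisation at `c` of a polynomial with coefficients in `A`. -/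
noncomputable def spec (c : MaximalSpectrum A) (g : A[X]) : (FieldAt c)[X] := g.map (evalAt c)

/-- The closed points of `Y` where `a` is not zero and at which the polynomial `g` over `A` has a root in
the residue field. -/
def rootPoints (a : A) (g : A[X]) : Set (MaximalSpectrum A) :=
  {c | evalAt c a ≠ 0 ∧ ∃ x : A, evalAt c (g.eval x) = 0}

/-- The polynomials `D` in `t` over `A` of degree at most `N` with coefficients in `H`. -/
def twists (H : Submodule k A) (N : ℕ) : Set A[X] :=
  {D | D.natDegree ≤ N ∧ ∀ j, D.coeff j ∈ H}

/-- The polynomials `D` the specialisations of which are settled at none of the points in `Z`. -/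
def exceptions (f h : A[X]) (Z : Set (MaximalSpectrum A)) (H : Submodule k A) (N : ℕ) : Set A[X] :=
  {D | D ∈ twists H N ∧ ∀ c ∈ Z, ¬ Settled (spec c f) (spec c h) N (spec c D)}

/-- For every `n ≥ 1` there is a finite-dimensional space `H₀` of functions on `Y` such that for all
finite-dimensional spaces `H ⊇ H₀` the proportion of the exceptions is at most `1 / n`. -/
def DensityOne (k : Type) [Field k] {A : Type} [CommRing A] [Algebra k A] (f h : A[X])
    (Z : Set (MaximalSpectrum A)) (N : ℕ) : Prop :=
  ∀ n : ℕ, ∃ H₀ : Submodule k A, Module.Finite k H₀ ∧ ∀ H : Submodule k A, H₀ ≤ H →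
    Module.Finite k H → (twists H N).Finite ∧
      n * (exceptions f h Z H N).ncard ≤ (twists H N).ncard

/-- The closed point `c` is admissible: the degree of `h` does not drop at `c`, the value of `f` is
squarefree, the values at `h` of its irreducible factors `R` are irreducible over `k(c)`, and either `N`
is odd and prime to the degrees of the `R`, or `f` has odd degree and is irreducible at `c`. -/
structure Admissible (f h : A[X]) (N : ℕ) (c : MaximalSpectrum A) : Prop where
  degree : (spec c h).natDegree = h.natDegree
  squarefree : Squarefree (spec c f)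
  irreducible : ∀ R : (FieldAt c)[X], Irreducible R → R ∣ spec c f →
    Irreducible (R.comp (spec c h))
  factors : (Odd N ∧ ∀ R : (FieldAt c)[X], Irreducible R → R ∣ spec c f →
    Nat.Coprime N R.natDegree) ∨ (Odd f.natDegree ∧ Irreducible (spec c f))

/-- The set `Z` contains admissible closed points of arbitrarily large degree. -/
def HasAdmissible (k : Type) [Field k] {A : Type} [CommRing A] [Algebra k A] (f h : A[X]) (N : ℕ)
    (Z : Set (MaximalSpectrum A)) : Prop :=
  ∀ m : ℕ, ∃ c ∈ Z, Admissible f h N c ∧ m ≤ Module.finrank k (FieldAt c)

end base

section proof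

variable {k : Type} [Field k] [Finite k] {A : Type} [CommRing A] [IsDomain A] [Algebra k A]
  [Algebra.FiniteType k A]

open Pool.Agent.W5h21.DQ in
theorem density (h2 : (2 : k) ≠ 0) {f h : A[X]} (hf : f.Monic) (hr : 2 ≤ f.natDegree)
    (ho : Odd h.natDegree) (N : ℕ) (Z : Set (MaximalSpectrum A))
    (hZ : HasAdmissible k f h N Z) : DensityOne k f h Z N := by
  classical
  intro n
  have hmf : ∀ c : MaximalSpectrum A, Module.Finite k (A ⧸ c.asIdeal) := fun c =>
    Pool.Agent.Y141.Lay.fin_quot k A c.asIdeal c.isMaximal
  set B := 4 * (N + 1) * (f.natDegree * h.natDegree + 1) with hB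
  let Z' : Set (MaximalSpectrum A) :=
    {c | c ∈ Z ∧ Admissible f h N c ∧ B ≤ Module.finrank k (FieldAt c)}
  have hZ' : Z'.Infinite := by
    intro hfin
    obtain ⟨b, hb⟩ := (hfin.image fun c : MaximalSpectrum A =>
      Module.finrank k (FieldAt c)).bddAbove
    obtain ⟨c, h1, h2, h3⟩ := hZ (max (b + 1) B)
    have h5 := hb ⟨c, ⟨h1, h2, (le_max_right _ _).trans h3⟩, rfl⟩
    have h6 := (le_max_left _ _).trans h3
    dsimp only at h5
    omega
  obtain ⟨V, hV⟩ : ∃ V, 2 * WW N = V + 1 := ⟨2 * WW N - 1, by have := WW_pos N; omega⟩
  have hV0 : 0 < V := by have := WW_pos N; omega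
  obtain ⟨t, ht⟩ := exists_num V n
  obtain ⟨T, hTZ, hTn⟩ := hZ'.exists_subset_card_eq t
  have hTf : ∀ c ∈ T, Finite (A ⧸ c.asIdeal) := fun c _ => by
    have := hmf c
    exact Module.finite_of_finite k
  obtain ⟨H₀, hH₀, hH₀'⟩ := Pool.Agent.Y709.Lay.exists_sub (k := k) T hTf
  refine ⟨H₀, hH₀, fun H hle hHf => ?_⟩
  have htw : (twists H N).Finite := Set.finite_coe_iff.1 (Pool.Agent.Y709.Sp.finite_grp H N)
  refine ⟨htw, ?_⟩
  have hmain := Pool.Agent.Y709.Lay.count_specC H N T hTf (hH₀' H hle)
    (fun c => {D | ¬ Goo (κ := FieldAt c) (spec c f) (spec c h) N D}) (2 * WW N) (2 * WW N - 1)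
    (fun c hc => ?_)
  · have hsub : (exceptions f h Z H N).ncard ≤
        {D : A[X] | (D.natDegree ≤ N ∧ ∀ j, D.coeff j ∈ H) ∧ ∀ c ∈ T,
          D.map (Ideal.Quotient.mk c.asIdeal) ∈
            {D | ¬ Goo (κ := FieldAt c) (spec c f) (spec c h) N D}}.ncard := by
      refine Set.ncard_le_ncard ?_ (htw.subset fun D hD => hD.1)
      rintro D ⟨hD, hex⟩
      exact ⟨hD, fun c hc hg => hex c (hTZ hc).1 (settled_of hg)⟩
    rw [hTn, hV, Nat.add_sub_cancel] at hmain
    have h3 : 0 < V ^ t := pow_pos hV0 t
    refine Nat.le_of_mul_le_mul_left ?_ h3
    calc V ^ t * (n * (exceptions f h Z H N).ncard) =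
          (n * V ^ t) * (exceptions f h Z H N).ncard := by ring
      _ ≤ (V + 1) ^ t * (exceptions f h Z H N).ncard := Nat.mul_le_mul_right _ ht
      _ ≤ (V + 1) ^ t * _ := Nat.mul_le_mul_left _ hsub
      _ ≤ _ := hmain
  · obtain ⟨hc1, hadm, hc3⟩ := hTZ hc
    have hfc : Finite (FieldAt c) := hTf c hc
    have hmf' : Module.Finite k (FieldAt c) := hmf c
    have hcard : Nat.card (FieldAt c) = Nat.card k ^ Module.finrank k (FieldAt c) :=
      Module.natCard_eq_pow_finrank (K := k) (V := A ⧸ c.asIdeal)
    have h2c : (2 : FieldAt c) ≠ 0 := by
      have h4 : algebraMap k (FieldAt c) 2 = 2 := map_ofNat _ 2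
      rw [← h4]
      exact (_root_.map_ne_zero _).2 h2
    have hfm : (spec c f).Monic := hf.map _
    have hfd : (spec c f).natDegree = f.natDegree := hf.natDegree_map _
    have hbase : Pool.Agent.Results.MP_9faec4_nt.PencilPullbacks.IsBase (spec c f) :=
      ⟨hfm, hadm.squarefree, by rw [hfd]; exact hr⟩
    have hbig : 4 * (N + 1) * (((spec c f).comp (spec c h)).natDegree + 1) ≤
        Nat.card (FieldAt c) := by
      rw [natDegree_comp, hfd, hadm.degree, hcard]
      exact hc3.trans (Nat.lt_pow_self Finite.one_lt_card).le
    have hfac : (Odd N ∧ ∀ R : (FieldAt c)[X], Irreducible R → R ∣ spec c f →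
        Nat.Coprime N R.natDegree) ∨ (Odd (spec c f).natDegree ∧ Irreducible (spec c f)) := by
      rw [hfd]
      exact hadm.factors
    exact few (κ := FieldAt c) h2c hbase (by rw [hadm.degree]; exact ho) hadm.irreducible hfac hbig

theorem enough (hA : ¬ Module.Finite k A) {f : A[X]} (hf : f.Monic)
    (hsep : (f.map (algebraMap A (FractionRing A))).Separable) {a : A}
    {g : A[X]} (ha : a ≠ 0) (hg : 0 < g.natDegree) {N : ℕ} (hN : Odd N) :
    HasAdmissible k f X N (rootPoints a g) := by
  intro m
  obtain ⟨c, h1, ⟨x, hx⟩, h3, -, h5, h6⟩ :=
    Pool.Agent.W5h21.DQ.exists_pt hA hf hsep ha hg m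
  have hspl : (spec c f).Splits := h5
  have hfm : (spec c f).Monic := hf.map _
  refine ⟨c, ⟨fun h => h1 (Ideal.Quotient.eq_zero_iff_mem.1 h), x,
    Ideal.Quotient.eq_zero_iff_mem.2 hx⟩, ⟨?_, ?_, ?_, Or.inl ⟨hN, ?_⟩⟩, h3⟩
  · unfold spec
    rw [Polynomial.map_X, natDegree_X, natDegree_X]
  · exact (show (spec c f).Separable from h6).squarefree
  · intro R hR _
    unfold spec
    rw [Polynomial.map_X, comp_X]
    exact hR
  · intro R hR hRf
    have h7 := (hspl.of_dvd hfm.ne_zero hRf).natDegree_le_one_of_irreducible hR
    have h8 := hR.natDegree_pos
    have h9 : R.natDegree = 1 := by omega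
    rw [h9]
    exact Nat.coprime_one_right _

end proof

/-- **Tate's Birch-Swinnerton-Dyer conjecture for 100 per cent of the quadratic twists of the Legendre curve
and of the universal hyperelliptic pencils, over the function field of `Y × 𝔸¹`, for every variety `Y` of
positive dimension over a finite field of odd characteristic.**

Let `Y` be an affine variety of positive dimension over the finite field `k` of odd characteristic, `A` its
coordinate ring, and `K = k(Y)(t)`; so every function field `k(Y)` over `k` is allowed, and
`n = dim Y + 1 ≥ 2` is the transcendence degree of `K` and the dimension of a model. Let `f` in `A[x]` be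
monic of degree `r ≥ 2` and `h` in `A[t]` of odd degree. For `D` in `A[t]` let `J_D` be the Jacobian of the
curve `D y ^ 2 = (x - h(t)) f(x)` over `K`, of dimension `g`, the integral part of `r / 2`. For
`f = x (x - 1)` these are the twists of the Legendre curve `y ^ 2 = x (x - 1) (x - h(t))`, so of all
elliptic curves with `λ = h`. The families are not isotrivial; for `h = t` the geometric monodromy group is
Zariski dense in `Sp(2 g)`.

The theorem: let `Z` be a set of closed points of `Y` that contains admissible points of arbitrarily large
degree. Then the density of the `D` of degree `N` in `t`, the specialisations `D_c` of which are settled at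
none of the points `c` in `Z`, is zero: for every `m` there is a finite-dimensional space `H₀` of functions
on `Y` such that for every finite-dimensional space `H ⊇ H₀` the `D` of degree at most `N` with coefficients
in `H` are settled at a point of `Z`, with the exception of a proportion of at most `1 / m`. Here settled
at `c` means that `D_c` has exact degree `N`, is squarefree and prime to `f_c(h_c(t))`, and that the
L-function of the specialisation, the twist by `D_c` over `k(c)(t)`, does not vanish at `s = 1`.

For `h = t`, every `f` that is separable over `k(Y)`, every odd `N`, every `a ≠ 0` in `A` and every polynomial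
`g` over `A` of positive degree the set `Z` of the closed points `c` with `a(c) ≠ 0` and with a root of `g`
in `k(c)` contains admissible points of arbitrarily large degree: nothing is assumed for these pencils. If
the degree of `f` is odd and `f` is irreducible at such points then all `N` are allowed.

This implies the conjecture (Q1) for `J_D` over `K' = k(Y')(t)` for every variety `Y'` that is generically
finite over `Y`, with the order and the rank both zero, if `Z` is the set for a suitable `g` as above. We may
assume that the function field of `Y'` is separable over the one of `Y`, and take for `g` the minimal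
polynomial of a generator (times a denominator), and choose `a` such that `Y` is smooth and the
discriminants of `g` and `f` and the leading coefficients of `g` and `h` are invertible where `a ≠ 0`. Let
`D` be settled at `c`. Then in a neighbourhood `U` of `c` the zeros of `D f(h(t))` form a finite étale
covering of `U`; let `V` be its complement in `U × 𝔸¹`, `π : V → U`, and `R` the sheaf of the first
cohomology of the fibres of the twisted curve on `V`. It is lisse and tame, so that `R¹π_! R` is lisse, and
the other `Rⁱπ_! R` are zero, since the local monodromy at the zeros of `D` is `-1`. The stalk of `R¹π_! R`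
at `c` is the extension of the cohomology of `j_* R_c` on the projective line, on which the characteristic
polynomial of Frobenius is the L-function, by spaces of weight at most one. So `#k(c)` is not an eigenvalue
of the Frobenius at `c` on this stalk. A root of `g` in `k(c)` gives a closed point of `Y'` above `c` with the
same residue field. By Deligne the order of `Φ₁` over `K'` at `s = n` is the multiplicity of the eigenvalue
`(#k') ^ n`, `k'` the field of constants of `Y'`, of Frobenius on the cohomology with compact support in
degree `2 (n - 1)` of the inverse image of `U` in `Y'` with coefficients in `R¹π_! R`, a twisted group of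
coinvariants and so a quotient of the stalk; hence it is zero. By Tate's inequality (or by
specialisation) the rank is zero as well.

Proof: modulo two the L-function of the twist by `D_c` over `k(c)(t)` is known (starting file
`PencilPullbacks`), and its zero at `s = 1` is simple if `D_c` is a prime of degree prime to the degrees of
the factors of `f_c`, or if `f_c` is irreducible of odd degree and `D_c` is a product of linear factors.
So one of the functions for `D_c` and `ε D_c` does not vanish. These `D_c` are a positive proportion, which
depends on `N` only, and the conditions at different points are independent. The admissible points are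
found with a primitive element of the field generated by the roots of `f` and by the separable part of a
root of `g`. -/
theorem result (k : Type) [Field k] [Finite k] (h2 : (2 : k) ≠ 0) (A : Type) [CommRing A]
    [IsDomain A] [Algebra k A] [Algebra.FiniteType k A] (hA : ¬ Module.Finite k A) (f : A[X])
    (hf : f.Monic) (hr : 2 ≤ f.natDegree) :
    (∀ (h : A[X]) (N : ℕ) (Z : Set (MaximalSpectrum A)), Odd h.natDegree → 0 < N →
      HasAdmissible k f h N Z → DensityOne k f h Z N) ∧
    ((f.map (algebraMap A (FractionRing A))).Separable → ∀ (a : A) (g : A[X]), a ≠ 0 →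
      0 < g.natDegree → ∀ N : ℕ, Odd N → HasAdmissible k f X N (rootPoints a g)) :=
  ⟨fun _ N Z ho _ hZ => density h2 hf hr ho N Z hZ,
    fun hsep _ _ ha hg _ hN => enough hA hf hsep ha hg hN⟩

end Pool.Agent.Results.MP_9faec4_nt.DensityOneQuadraticTwists
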