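import Pool.Agent.W5h21.TB.Final

/-!
# The product form of Tate's Birch–Swinnerton-Dyer conjecture over function fields of number fields

`f : 𝒳 → 𝒴` is a smooth projective family over a number field `K`, without constant part, whose base
has dimension `m ≥ 1` over `K`, and `X` is its generic fibre.  For a number field `F ⊇ K` let `n = m + 1`
be the dimension of the model of `𝒴_F` over the ring of integers of `F`, let `P_y` be the characteristic
polynomial of the Frobenius on `H¹` of the fibre over the closed point `y` of the model, and let `Φ₁` be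
the Euler product of Q1 for `X` over the finitely generated field `F(𝒴)`.

Birch and Swinnerton-Dyer stated their conjecture for elliptic curves over `ℚ` first in the form
`∏_{p ≤ T} N_p / p ~ C (log T)^r`.  There this form is much stronger than the form with the order of
vanishing (it implies the Riemann hypothesis for the `L`-function), and the constant is off by a factor
`√2` (Goldfeld).

We prove that for `m ≥ 1` the product form is equivalent to the form with the function, without any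
hypothesis about `Φ₁` at other points, and that there is no factor `√2`: for all complex numbers `ρ` and
`c ≠ 0` the limit formula `Φ₁(n + ε) ~ c ε^ρ` for `ε → 0+` holds if and only if
`∏_{q_y ≤ T} P_y(q_y^{-n}) ~ (e^{γρ} / c) (log T)^ρ` for `T → ∞`, and such a `c` exists if and only if
the sums `∑_{q_v ≤ T} b_v / q_v - ρ log log T` over the primes of `F` converge, where `-b_v` is the fibre
average of the traces of the Frobenius on `H¹` (the Nagao average).  The same holds at the points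
`n + iθ`.  If `Φ₁` has a meromorphic continuation to a neighbourhood of `n`, then its order of vanishing
is the number `r` with `∏_{q_y ≤ T} P_y(q_y^{-n}) ~ C (log T)^r` for some `C ≠ 0`, so that Q1 for `X`
over `F(𝒴)` says that this holds for `r = rank Pic⁰_X(F(𝒴))`.
-/

set_option autoImplicit false

namespace Pool.Agent.Results.MP_9faec4_nt.MertensForm

open NumberField IsDedekindDomain Filter Topology Pool.Agent.Y707.PH
open Pool.Agent.W353.FB (Fibration ValueAt)

section
variable {K : Type} [Field K] [NumberField K] {f : Fibration K}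
  {R : Finset (HeightOneSpectrum (𝓞 K))} {F : Type} [Field F] [NumberField F] [Algebra K F]

/-- The number `q_y` of elements of the residue field of the closed point `y`. -/
noncomputable def q (y : Pts f R F) : ℕ := Nat.card (MvPolynomial (Fin f.l) (𝓞 F) ⧸ y.1.asIdeal)

/-- The product of the values `P_y(q_y^{-s}) = ∏_{z ∈ β y} (1 - z q_y^{-s})` over the closed points `y`
with `q_y ≤ T`. -/
noncomputable def product (β : Pts f R F → Multiset ℂ) (s : ℂ) (T : ℝ) : ℂ :=
  ∏ᶠ (y : Pts f R F) (_ : (q y : ℝ) ≤ T), ((β y).map fun z => 1 - z * (q y : ℂ) ^ (-s)).prod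

variable (R) in
/-- The sum of `b_v q_v^{-s}` over the primes `v` of `F` with `q_v ≤ T` which are not above a prime
in `R`. -/
noncomputable def primeSum (b : HeightOneSpectrum (𝓞 F) → ℝ) (s : ℂ) (T : ℝ) : ℂ :=
  ∑ᶠ (v : HeightOneSpectrum (𝓞 F)) (_ : (Ideal.absNorm v.asIdeal : ℝ) ≤ T ∧
    ∀ u ∈ R, v.asIdeal.comap (algebraMap (𝓞 K) (𝓞 F)) ≠ u.asIdeal),
    (b v : ℂ) * ((Ideal.absNorm v.asIdeal : ℕ) : ℂ) ^ (-s)

/-- `Φ(s + ε) ~ c ε^ρ` for `ε → 0+`. -/
def Radial (Φ : ℂ → ℂ) (s ρ c : ℂ) : Prop :=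
  Tendsto (fun ε : ℝ => Φ (s + ε) * (ε : ℂ) ^ (-ρ)) (𝓝[>] 0) (𝓝 c)

/-- `∏_{q_y ≤ T} P_y(q_y^{-s}) ~ c (log T)^ρ` for `T → ∞`. -/
def ProductForm (β : Pts f R F → Multiset ℂ) (s ρ c : ℂ) : Prop :=
  Tendsto (fun T : ℝ => product β s T * (Real.log T : ℂ) ^ (-ρ)) atTop (𝓝 c)

end

/-- different exponents -/
theorem exponent_unique {g : ℝ → ℂ} {r k : ℤ} {a c : ℂ} (ha : a ≠ 0) (hc : c ≠ 0)
    (h : Tendsto (fun T : ℝ => g T * (Real.log T : ℂ) ^ (-(r : ℂ))) atTop (𝓝 a))
    (h' : Tendsto (fun T : ℝ => g T * (Real.log T : ℂ) ^ (-(k : ℂ))) atTop (𝓝 c)) : r = k := by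
  have h1 := (h.div h' hc).norm
  have h2 : Tendsto (fun T : ℝ => (Real.log T) ^ (k - r)) atTop (𝓝 ‖a / c‖) := by
    refine h1.congr' ?_
    have h3 : ∀ᶠ T in atTop, g T * (Real.log T : ℂ) ^ (-(k : ℂ)) ≠ 0 := h'.eventually_ne hc
    filter_upwards [h3, eventually_gt_atTop 1] with T hT hT1
    have hl : 0 < Real.log T := Real.log_pos hT1
    have hl' : ((Real.log T : ℝ) : ℂ) ≠ 0 := by exact_mod_cast hl.ne'
    have hg : g T ≠ 0 := left_ne_zero_of_mul hT
    simp only [Pi.div_apply]
    rw [Complex.cpow_neg, Complex.cpow_neg, Complex.cpow_intCast, Complex.cpow_intCast]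
    have h4 : g T * ((Real.log T : ℂ) ^ r)⁻¹ / (g T * ((Real.log T : ℂ) ^ k)⁻¹) =
        (((Real.log T) ^ (k - r) : ℝ) : ℂ) := by
      push_cast
      rw [zpow_sub₀ hl']
      field_simp
    rw [h4, Complex.norm_real, Real.norm_eq_abs, abs_of_pos (by positivity)]
  have hne : ‖a / c‖ ≠ 0 := norm_ne_zero_iff.2 (div_ne_zero ha hc)
  rcases lt_trichotomy (k - r) 0 with h3 | h3 | h3
  · exfalso
    have h4 := (tendsto_zpow_atTop_zero h3).comp Real.tendsto_log_atTop
    exact hne (tendsto_nhds_unique h2 h4)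
  · omega
  · exfalso
    obtain ⟨j, hj⟩ := Int.eq_ofNat_of_zero_le h3.le
    have hj0 : j ≠ 0 := by omega
    have h4 := (tendsto_pow_atTop hj0).comp Real.tendsto_log_atTop
    have h5 : Tendsto (fun T : ℝ => (Real.log T) ^ (k - r)) atTop atTop := by
      refine h4.congr fun T => ?_
      rw [Function.comp_apply, hj, zpow_natCast]
    exact not_tendsto_nhds_of_tendsto_atTop h5 _ h2

theorem result (K : Type) [Field K] [NumberField K] (f : Fibration K)
    (R : Finset (HeightOneSpectrum (𝓞 K))) (C : ℝ) (hf : IsLisse f R C) (hm : 1 ≤ f.m)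
    (F : Type) [Field F] [NumberField F] [Algebra K F]
    (β : Pts f R F → Multiset ℂ) (hβ : IsLocal f R F β) (Φ : ℂ → ℂ) (hΦ : IsPhi f R F Φ)
    (b : HeightOneSpectrum (𝓞 F) → ℝ)
    (hb : ∀ v : HeightOneSpectrum (𝓞 F),
      (∀ u ∈ R, v.asIdeal.comap (algebraMap (𝓞 K) (𝓞 F)) ≠ u.asIdeal) →
      ValueAt (averageValue f) v (b v)) :
    -- the products are finite
    (∀ T : ℝ, {y : Pts f R F | (q y : ℝ) ≤ T}.Finite) ∧
    -- the limit formula for `Φ₁` and the product form
    (∀ (θ : ℝ) (ρ c : ℂ), c ≠ 0 →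
      (Radial Φ ((f.m : ℂ) + 1 + θ * Complex.I) ρ c ↔
        ProductForm β ((f.m : ℂ) + 1 + θ * Complex.I) ρ
          (Complex.exp (Real.eulerMascheroniConstant * ρ) / c))) ∧
    -- the limit formula for `Φ₁` and the sums of the fibre averages
    (∀ (θ : ℝ) (ρ : ℂ),
      ((∃ c : ℂ, c ≠ 0 ∧ Radial Φ ((f.m : ℂ) + 1 + θ * Complex.I) ρ c) ↔
        ∃ S : ℂ, Tendsto (fun T : ℝ => primeSum R b (1 + θ * Complex.I) T -
          ρ * (Real.log (Real.log T) : ℂ)) atTop (𝓝 S))) ∧
    -- the order of vanishing of `Φ₁` and the product form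
    (∀ k : ℤ, HasOrder f R F k →
      (∃ c : ℝ, 0 < c ∧ Radial Φ ((f.m : ℂ) + 1) k c ∧
        ProductForm β ((f.m : ℂ) + 1) k (Complex.exp (Real.eulerMascheroniConstant * k) / c)) ∧
      ∀ r : ℤ, (∃ C : ℂ, C ≠ 0 ∧ ProductForm β ((f.m : ℂ) + 1) r C) ↔ k = r) := by
  have hs : ∀ θ : ℝ, ((f.m : ℂ) + 1 + θ * Complex.I).re = f.m + 1 := by
    intro θ
    simp
  have hs0 : ((f.m : ℂ) + 1).re = f.m + 1 := by simp
  refine ⟨fun T => Pool.Agent.W5h21.TB.pts_finite T, fun θ ρ c hc =>
    Pool.Agent.W5h21.TB.product_form hf hm hβ hΦ (hs θ) ρ hc, fun θ ρ => ?_, fun k hk => ?_⟩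
  · have h := Pool.Agent.W5h21.TB.prime_form hf (b := b) hb hΦ (hs θ) ρ
    have e : (f.m : ℂ) + 1 + θ * Complex.I - f.m = 1 + θ * Complex.I := by ring
    rw [e] at h
    exact h
  · obtain ⟨c, hc, h1⟩ := Pool.Agent.W5h21.TB.radial_order hf hΦ hk
    have hc' : (c : ℂ) ≠ 0 := by exact_mod_cast hc.ne'
    have h2 : ProductForm β ((f.m : ℂ) + 1) k
        (Complex.exp (Real.eulerMascheroniConstant * k) / c) :=
      (Pool.Agent.W5h21.TB.product_form hf hm hβ hΦ hs0 k hc').1 h1
    refine ⟨⟨c, hc, h1, h2⟩, fun r => ⟨?_, ?_⟩⟩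
    · rintro ⟨a, ha, h3⟩
      exact (exponent_unique ha (div_ne_zero (Complex.exp_ne_zero _) hc') h3 h2).symm
    · rintro rfl
      exact ⟨_, div_ne_zero (Complex.exp_ne_zero _) hc', h2⟩

end Pool.Agent.Results.MP_9faec4_nt.MertensForm
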